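import Pool.Agent.W873.Gp.Final

set_option autoImplicit false

/-!
# Centered forcing preserves the guessing model principle

Let `κ` be an infinite cardinal such that the guessing model principle `GMP` holds at `κ⁺⁺`, and let
`P` be a `κ⁺`-centered forcing notion, i.e. the union of `κ` directed sets `D i`. Then a condition
of `P` forces `GMP` at `κ⁺⁺` if and only if it forces `κ^{<κ} ≤ κ⁺`; so `GMP` at `κ⁺⁺` is preserved
if `κ^{<κ} = κ` holds in the extension, and for `κ = ω` it is always preserved. More generally, for
`μ ≤ κ` the principle for models closed under sequences of length less than `μ` is forced if and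
only if `κ^{<μ} ≤ κ⁺` is forced, and without closure (i.e. for `μ = ω`) it is always forced. The
definitions are in `Pool.Agent.W873.Gmp.Defs` and `Pool.Agent.W873.Gp.Defs`, the forcing relation
is the one of `Pool.Agent.Helper669.Forcing`.

Proof. For a guessing model `M` which contains everything relevant let `d` be a name for a set
which is approximated but not guessed by `M[G]`. For `i < κ` let `E_i(M)` be the set of the pairs
`(a, τ)` in `M` with `|a| ≤ κ` such that some condition in `D i` forces `d ∩ a = τ ∩ a`. If `E_i(M)`
is cofinal, i.e. if the `a` are cofinal in the sets of size `κ` in `M`, then `E_i(M)` is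
approximated, and so there is a unique `E^i` in `M` with `E^i ∩ M = E_i(M)`. As `M` is guessing and
closed under sequences of length less than `κ`, each subset of `M` of size `κ` is covered by an
element of `M` of size `κ`. So there is an index `ν` such that `E_ν(M)` is cofinal, there is a `w`
of size `κ` in `M` which contains all the `E^i`, and there is an `a` in `M` which bounds all
`E_i(M)` which are not cofinal. By elementarity there is a model `M₀` as above in `M` such that
`w` and `a` are in `M₀`, with the same `ν` and the same `E^ν`. For `b` in `M₀` of size `κ` some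
condition in `D ν` forces that the names `d₀` (for `M₀`) and `d` agree on `b`; since the forcing is
`κ⁺`-centered, these statements stabilise, so some condition `p` in `D ν` forces that `d₀` and `d`
agree on `M₀`. If some condition of `D i` is below `p`, then `E^i` is the same for `M₀` and `M`. But
the sequence of the sets `E^i` of `M₀` is an element of `M`; in `M[G]` it defines a set which
guesses `d`, as `G` is contained in the union of the `D i`.
-/

namespace Pool.Agent.Results.MP_100a6c_lc.CenteredPreservesGMP

open Cardinal Pool.Agent.W873.Gmp Pool.Agent.W873.Gp

/-- Suppose that the guessing model principle holds at `κ⁺⁺` and that `P` is a `κ⁺`-centered forcing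
notion. For each `μ ≤ κ` a condition forces the guessing model principle at `κ⁺⁺` for models closed
under sequences of length less than `μ` if and only if it forces `κ^{<μ} ≤ κ⁺`. For `μ = ω` all
conditions force this principle. -/
theorem result :
    (∀ κ μ : Cardinal.{0}, ℵ₀ ≤ κ → μ ≤ κ → GMP κ → ∀ (P : Type) [Preorder P], Centered κ P →
      ∀ p : P, p ∈ ForcedGMP κ μ P ↔ p ∈ ForcedPow κ μ P) ∧
    (∀ κ : Cardinal.{0}, ℵ₀ ≤ κ → GMP κ → ∀ (P : Type) [Preorder P], Centered κ P →
      ∀ p : P, p ∈ ForcedGMP κ ℵ₀ P) :=
  ⟨fun _ _ hκ hμ hG P _ hC p =>
      ⟨forcedPow_of_forcedGMP hκ hμ P p, forcedGMP hκ hμ hG P hC p⟩,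
    fun _ hκ hG P _ hC p => forcedGMP hκ hκ hG P hC p (forcedPow_aleph0 hκ p)⟩

end Pool.Agent.Results.MP_100a6c_lc.CenteredPreservesGMP
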